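import Pool.Agent.Helper53.CTG.Goals

/-! Project CTG (MP_8b4d68_lc), packet FU. -/

set_option autoImplicit false

namespace Pool.Agent.Helper79.CTG

open Pool.Agent.Helper53.CTG

theorem le_o {w : List Bool} {s n m : ℕ} (h : Ones w s n) (hm : w[s + m]? = some false) :
    n ≤ m := by
  by_contra hlt
  have h1 := h m (by omega)
  rw [h1] at hm
  simp at hm

theorem eq_o {w : List Bool} {s n m : ℕ} (h : Ones w s n) (hn : w[s + n]? = some false)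
    (h' : Ones w s m) (hm : w[s + m]? = some false) : n = m :=
  le_antisymm (le_o h hm) (le_o h' hn)

theorem gFU : GoalFU := by
  intro ok w N q b c N' q' b' c' hF
  obtain ⟨⟨⟨⟨⟨hN1, hN2, hN3⟩, hq2, hq3⟩, hb2, hb3⟩, hc2, -⟩, -⟩ := hF
  have a0 : Ones w 0 N → N ≤ N' := fun h => le_o h (by rwa [zero_add])
  have a1 : P1 w N q → N = N' ∧ q ≤ q' := by
    rintro ⟨h1, h2, h3⟩
    have e1 : N = N' := eq_o h1 (by rwa [zero_add]) hN1 (by rwa [zero_add])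
    subst e1
    exact ⟨rfl, le_o h3 hq2⟩
  have a2 : P2 w N q b → N = N' ∧ q = q' ∧ b ≤ b' := by
    rintro ⟨h1, h2, h3⟩
    obtain ⟨e1, -⟩ := a1 h1
    subst e1
    have e2 : q = q' := eq_o h1.2.2 h2 hN3 hq2
    subst e2
    exact ⟨rfl, rfl, le_o h3 hb2⟩
  have a3 : P3 w N q b c → N = N' ∧ q = q' ∧ b = b' ∧ c ≤ c' := by
    rintro ⟨h1, h2, h3⟩
    obtain ⟨e1, e2, -⟩ := a2 h1
    subst e1
    subst e2
    have e3 : b = b' := eq_o h1.2.2 h2 hq3 hb2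
    subst e3
    exact ⟨rfl, rfl, rfl, le_o h3 hc2⟩
  refine ⟨a0, a1, a2, a3, fun h h' => ?_⟩
  obtain ⟨e1, e2, e3, -⟩ := a3 h
  subst e1
  subst e2
  subst e3
  exact ⟨rfl, rfl, rfl, eq_o h.2.2 h' hb3 hc2⟩

end Pool.Agent.Helper79.CTG
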